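import Pool.Agent.U310.PV.Main

set_option autoImplicit false
set_option linter.unusedSectionVars false

/-!
The permanental rank of an `(m+1) × m` random matrix over a finite field of odd characteristic is
full with probability tending to one.
-/

open Finset Matrix Filter Topology

namespace Pool.Agent.U310.PV

variable {F : Type*} [Field F] [Fintype F] [DecidableEq F]

theorem N_eq_sum_ker (m : ℕ) : N F (m + 2) (m + 1) (m + 1) =
    ∑ B : Matrix (Fin (m + 2)) (Fin m) F, kerCard (cof B) := by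
  classical
  unfold N kerCard
  rw [card_filter_addCol]
  refine Finset.sum_congr rfl fun B _ => ?_
  congr 1
  ext v
  simp only [Finset.mem_filter, mem_univ, true_and]
  exact not_NZ_addCol_iff B v

open Classical in
theorem N_two (m : ℕ) : N F (m + 2) m m =
    ∑ B : Matrix (Fin (m + 2)) (Fin m) F, if cof B = 0 then 1 else 0 := by
  unfold N
  rw [Finset.card_filter]
  refine Finset.sum_congr rfl fun B _ => ?_
  by_cases h : NZ m B
  · rw [if_neg (not_not.2 h), if_neg (fun h' => (not_NZ_iff_two B).2 h' h)]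
  · rw [if_pos h, if_pos ((not_NZ_iff_two B).1 h)]

theorem sum_eqPairs (m : ℕ) :
    ∑ B : Matrix (Fin (m + 2)) (Fin m) F, eqPairs (cof B) =
      (m + 2) * Fintype.card F ^ ((m + 2) * m) +
        (m + 2) * (m + 1) * (Fintype.card F ^ m * N F (m + 1) m m) := by
  classical
  unfold eqPairs
  simp_rw [Finset.card_filter]
  rw [Finset.sum_comm, Fintype.sum_prod_type]
  have h1 : ∀ j j' : Fin (m + 2),
      (∑ B : Matrix (Fin (m + 2)) (Fin m) F, if cof B j = cof B j' then 1 else 0) =
      if j = j' then Fintype.card F ^ ((m + 2) * m) else Fintype.card F ^ m * N F (m + 1) m m := by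
    intro j j'
    split_ifs with h
    · subst h
      simp [card_matrix]
    · rw [← card_row_eq' m j j' h, Finset.card_filter]
  simp_rw [h1]
  have h2 : ∀ j : Fin (m + 2), (∑ j' : Fin (m + 2), if j = j' then
      Fintype.card F ^ ((m + 2) * m) else Fintype.card F ^ m * N F (m + 1) m m) =
      Fintype.card F ^ ((m + 2) * m) + (m + 1) * (Fintype.card F ^ m * N F (m + 1) m m) := by
    intro j
    rw [Fin.sum_univ_succAbove _ j, if_pos rfl]
    congr 1
    rw [Finset.sum_congr rfl (fun k _ => if_neg (Ne.symm (Fin.succAbove_ne j k))),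
      Finset.sum_const, Finset.card_univ, Fintype.card_fin, smul_eq_mul]
  simp_rw [h2]
  rw [Finset.sum_const, Finset.card_univ, Fintype.card_fin, smul_eq_mul]
  ring

theorem kerCard_zero (n : ℕ) : kerCard (0 : Matrix (Fin n) (Fin n) F) = Fintype.card F ^ n := by
  unfold kerCard
  rw [Finset.filter_true_of_mem (fun v _ => Matrix.zero_mulVec v), Finset.card_univ,
    Fintype.card_fun, Fintype.card_fin]

theorem eqPairs_zero (n : ℕ) : eqPairs (0 : Matrix (Fin n) (Fin n) F) = n ^ 2 := by
  unfold eqPairs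
  have h : (univ.filter fun p : Fin n × Fin n => (0 : Matrix (Fin n) (Fin n) F) p.1 =
      (0 : Matrix (Fin n) (Fin n) F) p.2) = univ := by
    ext p
    simp only [Finset.mem_filter, mem_univ, true_and, iff_true]
    rfl
  rw [h, Finset.card_univ, Fintype.card_prod, Fintype.card_fin, sq]

/-- the counting form of the main inequality. -/
theorem main_count (h2 : (2 : F) ≠ 0) (m : ℕ) :
    Fintype.card F * (m + 2) ^ 2 * N F (m + 2) (m + 1) (m + 1) +
        2 * Fintype.card F ^ (m + 2) * (m + 2) ^ 2 * N F (m + 2) m m ≤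
      Fintype.card F * (m + 2) ^ 2 * Fintype.card F ^ (m + 2) * N F (m + 2) m m +
        2 * Fintype.card F ^ (m + 2) * ((m + 2) * Fintype.card F ^ ((m + 2) * m) +
        (m + 2) * (m + 1) * (Fintype.card F ^ m * N F (m + 1) m m)) := by
  classical
  rw [← sum_eqPairs, N_eq_sum_ker, N_two, Finset.mul_sum, Finset.mul_sum, Finset.mul_sum,
    Finset.mul_sum, ← Finset.sum_add_distrib, ← Finset.sum_add_distrib]
  refine Finset.sum_le_sum fun B _ => ?_
  by_cases h : cof B = 0
  · rw [if_pos h, h, kerCard_zero, eqPairs_zero]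
    apply le_of_eq
    ring
  · rw [if_neg h, mul_zero, mul_zero, add_zero, zero_add]
    exact hollow_ineq (cof B) h2 (cof_transpose B) (cof_diag B) h

/-- the main inequality. -/
theorem main_ineq (h2 : (2 : F) ≠ 0) (m : ℕ) :
    D F (m + 2) (m + 1) (m + 1) ≤ (1 - 2 / (Fintype.card F : ℝ)) * D F (m + 2) m m +
      2 / (Fintype.card F : ℝ) * (D F (m + 1) m m + 1 / ((m : ℝ) + 2)) := by
  have h := main_count h2 m
  have hR : (Fintype.card F : ℝ) * ((m : ℝ) + 2) ^ 2 * N F (m + 2) (m + 1) (m + 1) +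
        2 * (Fintype.card F : ℝ) ^ (m + 2) * ((m : ℝ) + 2) ^ 2 * N F (m + 2) m m ≤
      (Fintype.card F : ℝ) * ((m : ℝ) + 2) ^ 2 * (Fintype.card F : ℝ) ^ (m + 2) *
        N F (m + 2) m m +
        2 * (Fintype.card F : ℝ) ^ (m + 2) * (((m : ℝ) + 2) * (Fintype.card F : ℝ) ^ ((m + 2) * m) +
        ((m : ℝ) + 2) * ((m : ℝ) + 1) * ((Fintype.card F : ℝ) ^ m * N F (m + 1) m m)) := by
    exact_mod_cast h
  have hq := q_pos (F := F)
  have hD1 := D_nonneg (F := F) (m + 1) m m
  unfold D at hD1 ⊢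
  set Q : ℝ := (Fintype.card F : ℝ)
  set x : ℝ := (N F (m + 2) (m + 1) (m + 1) : ℝ)
  set y : ℝ := (N F (m + 2) m m : ℝ)
  set z : ℝ := (N F (m + 1) m m : ℝ)
  set s : ℝ := (m : ℝ) + 2 with hs
  have hs0 : 0 < s := by positivity
  have e1 : (m + 2) * (m + 1) = (m + 2) * m + (m + 2) := by ring
  have e2 : (m + 2) * m = (m + 1) * m + m := by ring
  have hz : 0 ≤ z / Q ^ ((m + 1) * m) := hD1
  set P : ℝ := Q ^ ((m + 1) * m) with hP
  set T : ℝ := Q ^ m with hT
  have hP0 : 0 < P := by positivity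
  have hT0 : 0 < T := by positivity
  have e3 : Q ^ ((m + 2) * m) = P * T := by rw [e2, pow_add]
  have e4 : Q ^ ((m + 2) * (m + 1)) = P * T * (Q ^ (m + 2)) := by rw [e1, pow_add, e3]
  rw [e4, e3]
  rw [e3] at hR
  set U : ℝ := Q ^ (m + 2) with hU
  have hU0 : 0 < U := by positivity
  have hz0 : 0 ≤ z := by positivity
  have hms : (m : ℝ) + 1 = s - 1 := by rw [hs]; ring
  rw [hms] at hR
  have e5 : (1 - 2 / Q) * (y / (P * T)) + 2 / Q * (z / P + 1 / s) - x / (P * T * U) =
      ((Q * s ^ 2 * U * y + 2 * U * (s * (P * T) + s * (s - 1) * (T * z))) -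
        (Q * s ^ 2 * x + 2 * U * s ^ 2 * y) + 2 * U * s * T * z) / (Q * s ^ 2 * (P * T * U)) := by
    field_simp
    ring
  have e6 : 0 ≤ (1 - 2 / Q) * (y / (P * T)) + 2 / Q * (z / P + 1 / s) - x / (P * T * U) := by
    rw [e5]
    apply div_nonneg _ (by positivity)
    have h7 : 0 ≤ 2 * U * s * T * z := by positivity
    linarith
  linarith

theorem three_le_q (h2 : (2 : F) ≠ 0) : (3 : ℝ) ≤ Fintype.card F := by
  have h3 : 3 ≤ Fintype.card F := by
    by_contra hlt
    have h1 : 1 < Fintype.card F := Fintype.one_lt_card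
    have h4 : Fintype.card F = 2 := by omega
    apply h2
    have := FiniteField.cast_card_eq_zero F
    rw [h4] at this
    exact_mod_cast this
  exact_mod_cast h3

/-- the least eventual upper bound of a sequence. -/
noncomputable def ev (u : ℕ → ℝ) : ℝ := sInf {c : ℝ | ∀ᶠ m in atTop, u m ≤ c}

theorem ev_le {u : ℕ → ℝ} (h0 : ∀ m, 0 ≤ u m) {c : ℝ} (h : ∀ᶠ m in atTop, u m ≤ c) :
    ev u ≤ c := by
  refine csInf_le ⟨0, ?_⟩ h
  intro d hd
  obtain ⟨m, hm⟩ := hd.exists
  exact (h0 m).trans hm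

theorem eventually_le_ev {u : ℕ → ℝ} (h1 : ∀ m, u m ≤ 1) {ε : ℝ} (hε : 0 < ε) :
    ∀ᶠ m in atTop, u m ≤ ev u + ε := by
  have hne : {c : ℝ | ∀ᶠ m in atTop, u m ≤ c}.Nonempty := ⟨1, Eventually.of_forall h1⟩
  obtain ⟨c, hc, hlt⟩ := exists_lt_of_csInf_lt hne (lt_add_of_pos_right (ev u) hε)
  exact Eventually.mono hc fun m hm => hm.trans hlt.le

/-- if `u (m + 1) ≤ a v(m) + b w(m) + e(m)` eventually then the same holds for the bounds. -/
theorem ev_combine {u v w e : ℕ → ℝ} {a b : ℝ} (k : ℕ) (ha : 0 ≤ a) (hb : 0 ≤ b)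
    (hu0 : ∀ m, 0 ≤ u m) (hv1 : ∀ m, v m ≤ 1) (hw1 : ∀ m, w m ≤ 1)
    (he : Tendsto e atTop (𝓝 0)) (h : ∀ m, u (m + k) ≤ a * v m + b * w m + e m) :
    ev u ≤ a * ev v + b * ev w := by
  refine le_of_forall_pos_le_add fun ε hε => ?_
  set δ := ε / (a + b + 1) with hδ
  have hab : 0 < a + b + 1 := by positivity
  have hδ0 : 0 < δ := div_pos hε hab
  apply ev_le hu0
  have h1 := eventually_le_ev hv1 hδ0
  have h2 := eventually_le_ev hw1 hδ0
  have h3 : ∀ᶠ m in atTop, e m < δ := he.eventually (gt_mem_nhds hδ0)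
  have h4 : ∀ᶠ m in atTop, u (m + k) ≤ a * ev v + b * ev w + ε := by
    filter_upwards [h1, h2, h3] with m h1 h2 h3
    refine (h m).trans ?_
    have h5 : a * v m ≤ a * (ev v + δ) := mul_le_mul_of_nonneg_left h1 ha
    have h6 : b * w m ≤ b * (ev w + δ) := mul_le_mul_of_nonneg_left h2 hb
    have h7 : (a + b + 1) * δ = ε := by
      rw [hδ]
      field_simp
    nlinarith
  rw [eventually_atTop] at h4 ⊢
  obtain ⟨m0, hm0⟩ := h4
  refine ⟨m0 + k, fun m hm => ?_⟩
  have := hm0 (m - k) (by omega)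
  rwa [Nat.sub_add_cancel (by omega)] at this

/-- deficiency at least `s` for `(m+1) × m` matrices. -/
noncomputable def X (F : Type*) [Field F] [Fintype F] [DecidableEq F] (s m : ℕ) : ℝ :=
  D F (m + 1) m (m + 1 - s)

/-- deficiency at least `s` for `(m+2) × m` matrices. -/
noncomputable def Y (F : Type*) [Field F] [Fintype F] [DecidableEq F] (s m : ℕ) : ℝ :=
  D F (m + 2) m (m + 1 - s)

theorem Y_le (s m : ℕ) (hs : 1 ≤ s) : Y F s m ≤ 1 / (Fintype.card F : ℝ) * X F s m +
    (1 - 1 / (Fintype.card F : ℝ)) * X F (s + 1) m := by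
  have hq := two_le_q (F := F)
  have hq0 := q_pos (F := F)
  have hi : 1 / (Fintype.card F : ℝ) ≤ 1 := by
    rw [div_le_one hq0]
    linarith
  have hi0 : 0 < 1 / (Fintype.card F : ℝ) := by positivity
  have hX1 : 0 ≤ X F s m := D_nonneg _ _ _
  have hX2 : 0 ≤ X F (s + 1) m := D_nonneg _ _ _
  by_cases hsm : s ≤ m
  · obtain ⟨r, hr⟩ : ∃ r, m + 1 - s = r + 1 := ⟨m - s, by omega⟩
    have hr' : m + 1 - (s + 1) = r := by omega
    have h := D_row (F := F) (m + 1) m r (by omega)
    unfold Y X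
    rw [hr, hr']
    have h3 := D_mono (F := F) (m + 1) m r
    have h4 : (1 / (Fintype.card F : ℝ)) ^ (m - r) ≤ 1 / (Fintype.card F : ℝ) := by
      apply pow_le_of_le_one hi0.le hi (by omega)
    have h5 : (1 / (Fintype.card F : ℝ)) ^ (m - r) * (D F (m + 1) m (r + 1) - D F (m + 1) m r) ≤
        1 / (Fintype.card F : ℝ) * (D F (m + 1) m (r + 1) - D F (m + 1) m r) :=
      mul_le_mul_of_nonneg_right h4 (sub_nonneg.2 h3)
    linarith
  · have h0 : m + 1 - s = 0 := by omega
    unfold Y
    rw [h0, D_zero]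
    have : 0 ≤ 1 - 1 / (Fintype.card F : ℝ) := by linarith
    positivity

theorem X_succ_le (s m : ℕ) (hs : 1 ≤ s) : X F (s + 1) (m + 1) ≤
    1 / (Fintype.card F : ℝ) * Y F s m + (1 - 1 / (Fintype.card F : ℝ)) * Y F (s + 1) m := by
  have hq := two_le_q (F := F)
  have hq0 := q_pos (F := F)
  have hi : 1 / (Fintype.card F : ℝ) ≤ 1 := by
    rw [div_le_one hq0]
    linarith
  have hi0 : 0 < 1 / (Fintype.card F : ℝ) := by positivity
  have hX1 : 0 ≤ Y F s m := D_nonneg _ _ _
  have hX2 : 0 ≤ Y F (s + 1) m := D_nonneg _ _ _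
  by_cases hsm : s ≤ m
  · obtain ⟨r, hr⟩ : ∃ r, m + 1 - s = r + 1 := ⟨m - s, by omega⟩
    have hr' : m + 1 - (s + 1) = r := by omega
    have hr'' : m + 1 + 1 - (s + 1) = r + 1 := by omega
    have h := D_col (F := F) (m + 2) m r (by omega)
    unfold Y X
    rw [hr, hr', hr'']
    have h3 := D_mono (F := F) (m + 2) m r
    have h4 : (1 / (Fintype.card F : ℝ)) ^ (m + 2 - r) ≤ 1 / (Fintype.card F : ℝ) := by
      apply pow_le_of_le_one hi0.le hi (by omega)
    have h5 : (1 / (Fintype.card F : ℝ)) ^ (m + 2 - r) *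
        (D F (m + 2) m (r + 1) - D F (m + 2) m r) ≤
        1 / (Fintype.card F : ℝ) * (D F (m + 2) m (r + 1) - D F (m + 2) m r) :=
      mul_le_mul_of_nonneg_right h4 (sub_nonneg.2 h3)
    linarith
  · have h0 : m + 1 + 1 - (s + 1) = 0 := by omega
    unfold X
    rw [h0, D_zero]
    have : 0 ≤ 1 - 1 / (Fintype.card F : ℝ) := by linarith
    positivity

theorem X_tail (s m : ℕ) (hs : 1 ≤ s) : X F s m ≤ (1 / (Fintype.card F : ℝ)) ^ s := by
  by_cases hsm : s ≤ m + 1
  · have h := D_tail (F := F) (m + 1) m (m + 1 - s) (by omega) (by omega)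
    have e : m + 1 - (m + 1 - s) = s := by omega
    rwa [e] at h
  · have h0 : m + 1 - s = 0 := by omega
    unfold X
    rw [h0, D_zero]
    have := q_pos (F := F)
    positivity

theorem ev_X_le_all (h2 : (2 : F) ≠ 0) (s : ℕ) :
    ev (X F 1) ≤ ev (X F (s + 1)) ∧ ev (Y F (s + 1)) ≤ ev (X F (s + 1)) ∧
      ev (X F (s + 1)) ≤ ev (Y F (s + 1)) ∧ ev (X F (s + 1)) ≤ ev (X F (s + 2)) := by
  have hq := three_le_q h2
  have hq0 := q_pos (F := F)
  have hi : 1 / (Fintype.card F : ℝ) ≤ 1 / 3 := one_div_le_one_div_of_le (by norm_num) hq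
  have hi0 : 0 < 1 / (Fintype.card F : ℝ) := by positivity
  have hX0 : ∀ s m, 0 ≤ X F s m := fun s m => D_nonneg _ _ _
  have hX1 : ∀ s m, X F s m ≤ 1 := fun s m => D_le_one _ _ _
  have hY0 : ∀ s m, 0 ≤ Y F s m := fun s m => D_nonneg _ _ _
  have hY1 : ∀ s m, Y F s m ≤ 1 := fun s m => D_le_one _ _ _
  set i : ℝ := 1 / (Fintype.card F : ℝ) with hidef
  have hY : ∀ s, 1 ≤ s → ev (Y F s) ≤ i * ev (X F s) + (1 - i) * ev (X F (s + 1)) := by
    intro s hs
    refine ev_combine (e := fun _ => 0) 0 hi0.le (by linarith) (hY0 s) (hX1 s) (hX1 (s + 1))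
      tendsto_const_nhds ?_
    intro m
    have h := Y_le (F := F) s m hs
    simp only [add_zero]
    exact h
  have hX : ∀ s, 1 ≤ s → ev (X F (s + 1)) ≤ i * ev (Y F s) + (1 - i) * ev (Y F (s + 1)) := by
    intro s hs
    refine ev_combine (e := fun _ => 0) 1 hi0.le (by linarith) (hX0 (s + 1)) (hY1 s) (hY1 (s + 1))
      tendsto_const_nhds ?_
    intro m
    have h := X_succ_le (F := F) s m hs
    simp only [add_zero]
    exact h
  have hmain : ev (X F 1) ≤ (1 - 2 * i) * ev (Y F 1) + 2 * i * ev (X F 1) := by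
    refine ev_combine (e := fun m : ℕ => 2 * i * (1 / ((m : ℝ) + 2))) 1 (by linarith)
      (by linarith) (hX0 1) (hY1 1) (hX1 1) ?_ ?_
    · have h5 : Tendsto (fun m : ℕ => 1 / ((m : ℝ) + 2)) atTop (𝓝 0) := by
        have h6 : Tendsto (fun m : ℕ => (m : ℝ) + 2) atTop atTop :=
          tendsto_atTop_add_const_right _ _ tendsto_natCast_atTop_atTop
        have h7 := h6.inv_tendsto_atTop
        refine h7.congr fun m => ?_
        rw [Pi.inv_apply, one_div]
      have := h5.const_mul (2 * i)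
      rwa [mul_zero] at this
    · intro m
      have h := main_ineq h2 m
      have e : 2 / (Fintype.card F : ℝ) = 2 * i := by rw [hidef]; ring
      rw [e] at h
      have e1 : m + 1 + 1 - 1 = m + 1 := by omega
      have e2 : m + 1 - 1 = m := by omega
      have h' : D F (m + 2) (m + 1) (m + 1) ≤
          (1 - 2 * i) * D F (m + 2) m m + 2 * i * D F (m + 1) m m + 2 * i * (1 / ((m : ℝ) + 2)) := by
        linarith
      unfold X Y
      rw [e1, e2]
      exact h'
  have h1Y : ev (X F 1) ≤ ev (Y F 1) := by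
    have : (1 - 2 * i) * ev (X F 1) ≤ (1 - 2 * i) * ev (Y F 1) := by linarith
    exact le_of_mul_le_mul_left this (by linarith)
  -- a general step: from `X s ≤ Y s` get `X s ≤ X (s+1)` and `Y s ≤ X s`
  have hmono : ∀ s, ev (X F (s + 1)) ≤ ev (X F s) := by
    intro s
    refine le_of_forall_pos_le_add fun ε hε => ?_
    apply ev_le (hX0 (s + 1))
    filter_upwards [eventually_le_ev (hX1 s) hε] with m hm
    refine le_trans ?_ hm
    unfold X
    by_cases hsm : s ≤ m
    · have e : m + 1 - s = (m + 1 - (s + 1)) + 1 := by omega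
      rw [e]
      exact D_mono (F := F) _ _ _
    · have e : m + 1 - (s + 1) = 0 := by omega
      rw [e, D_zero]
      exact D_nonneg (F := F) _ _ _
  have step : ∀ s, 1 ≤ s → ev (X F s) ≤ ev (Y F s) →
      ev (X F s) ≤ ev (X F (s + 1)) ∧ ev (Y F s) ≤ ev (X F s) := by
    intro s hs h
    have h3 := hY s hs
    have h4 : (1 - i) * ev (X F s) ≤ (1 - i) * ev (X F (s + 1)) := by linarith
    have h5 : ev (X F s) ≤ ev (X F (s + 1)) := le_of_mul_le_mul_left h4 (by linarith)
    refine ⟨h5, ?_⟩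
    have h6 := hmono s
    have h7 : (1 - i) * ev (X F (s + 1)) ≤ (1 - i) * ev (X F s) :=
      mul_le_mul_of_nonneg_left h6 (by linarith)
    linarith
  induction s with
  | zero =>
    obtain ⟨h3, h4⟩ := step 1 le_rfl h1Y
    exact ⟨le_rfl, h4, h1Y, h3⟩
  | succ s ih =>
    obtain ⟨i1, i2, i3, i4⟩ := ih
    have h3 := hX (s + 1) (by omega)
    have h4 : ev (X F (s + 1)) = ev (X F (s + 2)) := le_antisymm i4 (hmono _)
    have h5 : ev (X F (s + 2)) ≤ ev (Y F (s + 2)) := by
      have h6 : i * ev (Y F (s + 1)) ≤ i * ev (X F (s + 1)) := mul_le_mul_of_nonneg_left i2 hi0.le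
      have h7 : (1 - i) * ev (X F (s + 2)) ≤ (1 - i) * ev (Y F (s + 2)) := by
        rw [h4] at h6
        have h8 : s + 1 + 1 = s + 2 := rfl
        rw [h8] at h3
        linarith
      exact le_of_mul_le_mul_left h7 (by linarith)
    obtain ⟨h8, h9⟩ := step (s + 2) (by omega) h5
    exact ⟨i1.trans i4, h9, h5, h8⟩

theorem X_tendsto (h2 : (2 : F) ≠ 0) : Tendsto (X F 1) atTop (𝓝 0) := by
  have hq := three_le_q h2
  have hq0 := q_pos (F := F)
  have hi : 1 / (Fintype.card F : ℝ) ≤ 1 / 3 := one_div_le_one_div_of_le (by norm_num) hq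
  have hi0 : 0 < 1 / (Fintype.card F : ℝ) := by positivity
  have hev : ev (X F 1) ≤ 0 := by
    have h1 : ∀ s : ℕ, ev (X F 1) ≤ (1 / (Fintype.card F : ℝ)) ^ (s + 1) := by
      intro s
      refine (ev_X_le_all h2 s).1.trans ?_
      exact ev_le (fun m => D_nonneg _ _ _) (Eventually.of_forall fun m => X_tail (s + 1) m (by omega))
    have h3 : Tendsto (fun s : ℕ => (1 / (Fintype.card F : ℝ)) ^ (s + 1)) atTop (𝓝 0) :=
      (tendsto_add_atTop_iff_nat 1).2
        (tendsto_pow_atTop_nhds_zero_of_lt_one hi0.le (by linarith))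
    exact ge_of_tendsto' h3 h1
  rw [Metric.tendsto_atTop]
  intro ε hε
  have h3 := eventually_le_ev (u := X F 1) (fun m => D_le_one _ _ _) (half_pos hε)
  rw [eventually_atTop] at h3
  obtain ⟨m0, hm0⟩ := h3
  refine ⟨m0, fun m hm => ?_⟩
  have h4 := hm0 m hm
  have h5 : 0 ≤ X F 1 m := D_nonneg _ _ _
  rw [Real.dist_eq, sub_zero, abs_of_nonneg h5]
  linarith

/-- square matrices: zero permanent. -/
theorem not_NZ_square {n : ℕ} (A : Matrix (Fin n) (Fin n) F) : ¬ NZ n A ↔ A.permanent = 0 := by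
  constructor
  · intro h
    by_contra hc
    exact h ⟨id, id, Function.injective_id, Function.injective_id, hc⟩
  · rintro h ⟨f, g, hf, hg, hne⟩
    have hbf : Function.Bijective f := Finite.injective_iff_bijective.1 hf
    have hbg : Function.Bijective g := Finite.injective_iff_bijective.1 hg
    apply hne
    have : A.submatrix f g = (A.submatrix (Equiv.ofBijective f hbf) id).submatrix id
        (Equiv.ofBijective g hbg) := by
      ext i j
      rfl
    rw [this, Matrix.permanent_permute_rows, Matrix.permanent_permute_cols, h]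

/-- the lower bound: a linear functional has a large kernel. -/
theorem lower (n : ℕ) : 1 / (Fintype.card F : ℝ) ≤ D F (n + 1) (n + 1) (n + 1) := by
  classical
  have hq0 := q_pos (F := F)
  have h1 : Fintype.card F ^ ((n + 1) * n) * Fintype.card F ^ n ≤ N F (n + 1) (n + 1) (n + 1) := by
    unfold N
    rw [card_filter_addCol]
    have h3 : ∀ B : Matrix (Fin (n + 1)) (Fin n) F, Fintype.card F ^ n ≤
        (univ.filter fun v : Fin (n + 1) → F => ¬ NZ (n + 1) (addCol v B)).card := by
      intro B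
      -- the permanent as a linear functional of the column
      let c : Fin (n + 1) → F := fun k => (B.submatrix k.succAbove id).permanent
      have h4 : ∀ v, (addCol v B).permanent = ∑ k, v k * c k := by
        intro v
        have h5 := permanent_addCol v B (id : Fin (n + 1) → Fin (n + 1)) (id : Fin n → Fin n)
        have h6 : (addCol v B).submatrix (id : Fin (n + 1) → Fin (n + 1))
            (Fin.cons 0 (Fin.succ ∘ id) : Fin (n + 1) → Fin (n + 1)) = addCol v B := by
          ext i j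
          refine Fin.cases ?_ (fun j => ?_) j <;> simp
        rw [h6] at h5
        exact h5
      have h7 : ∀ t : F, (univ.filter fun v : Fin (n + 1) → F => ∑ k, v k * c k = t).card ≤
          (univ.filter fun v : Fin (n + 1) → F => ∑ k, v k * c k = 0).card := by
        intro t
        by_cases hne : (univ.filter fun v : Fin (n + 1) → F => ∑ k, v k * c k = t).Nonempty
        · obtain ⟨w, hw⟩ := hne
          rw [Finset.mem_filter] at hw
          refine Finset.card_le_card_of_injOn (fun v => v - w) ?_ ?_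
          · intro v hv
            simp only [coe_filter, mem_univ, true_and, Set.mem_ofPred_eq] at hv ⊢
            simp only [Pi.sub_apply, sub_mul, Finset.sum_sub_distrib, hv, hw.2, sub_self]
          · intro v _ v' _ h
            exact sub_left_injective h
        · rw [Finset.not_nonempty_iff_eq_empty] at hne
          rw [hne, Finset.card_empty]
          exact Nat.zero_le _
      have h8 : Fintype.card F ^ (n + 1) =
          ∑ t : F, (univ.filter fun v : Fin (n + 1) → F => ∑ k, v k * c k = t).card := by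
        have := Finset.card_eq_sum_card_fiberwise (f := fun v : Fin (n + 1) → F => ∑ k, v k * c k)
          (s := (univ : Finset (Fin (n + 1) → F))) (t := (univ : Finset F))
          (fun _ _ => Finset.mem_coe.2 (mem_univ _))
        rw [Finset.card_univ, Fintype.card_fun, Fintype.card_fin] at this
        exact this
      have h9 : Fintype.card F ^ (n + 1) ≤ Fintype.card F *
          (univ.filter fun v : Fin (n + 1) → F => ∑ k, v k * c k = 0).card := by
        rw [h8]
        calc _ ≤ ∑ t : F, (univ.filter fun v : Fin (n + 1) → F => ∑ k, v k * c k = 0).card :=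
              Finset.sum_le_sum fun t _ => h7 t
          _ = _ := by rw [Finset.sum_const, Finset.card_univ, smul_eq_mul]
      rw [pow_succ, mul_comm] at h9
      have h10 := Nat.le_of_mul_le_mul_left h9 Fintype.card_pos
      refine h10.trans (le_of_eq ?_)
      congr 1
      ext v
      simp only [Finset.mem_filter, mem_univ, true_and]
      rw [not_NZ_square, h4]
    calc Fintype.card F ^ ((n + 1) * n) * Fintype.card F ^ n =
        ∑ B : Matrix (Fin (n + 1)) (Fin n) F, Fintype.card F ^ n := by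
          rw [Finset.sum_const, Finset.card_univ, card_matrix, smul_eq_mul]
      _ ≤ _ := Finset.sum_le_sum fun B _ => h3 B
  have h1R : (Fintype.card F : ℝ) ^ ((n + 1) * n) * (Fintype.card F : ℝ) ^ n ≤
      N F (n + 1) (n + 1) (n + 1) := by exact_mod_cast h1
  unfold D
  rw [div_le_div_iff₀ hq0 (by positivity), one_mul]
  calc (Fintype.card F : ℝ) ^ ((n + 1) * (n + 1)) =
      (Fintype.card F : ℝ) ^ ((n + 1) * n) * (Fintype.card F : ℝ) ^ n * Fintype.card F := by
        rw [← pow_add, ← pow_succ]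
        ring_nf
    _ ≤ _ := by gcongr

theorem upper (n : ℕ) : D F (n + 1) (n + 1) (n + 1) ≤ 1 / (Fintype.card F : ℝ) + X F 1 n := by
  have h := D_col (F := F) (n + 1) n n (by omega)
  have e : n + 1 - n = 1 := by omega
  rw [e, pow_one] at h
  have h1 := D_le_one (F := F) (n + 1) n (n + 1)
  have h2 := D_nonneg (F := F) (n + 1) n n
  have hi0 : 0 < 1 / (Fintype.card F : ℝ) := by have := q_pos (F := F); positivity
  have h3 : 1 / (Fintype.card F : ℝ) * (D F (n + 1) n (n + 1) - D F (n + 1) n n) ≤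
      1 / (Fintype.card F : ℝ) * 1 := by
    apply mul_le_mul_of_nonneg_left _ hi0.le
    linarith
  have e2 : X F 1 n = D F (n + 1) n n := by
    unfold X
    rw [Nat.add_sub_cancel]
  rw [e2]
  linarith

theorem tendsto_square (h2 : (2 : F) ≠ 0) :
    Tendsto (fun n : ℕ => D F n n n) atTop (𝓝 (1 / (Fintype.card F : ℝ))) := by
  rw [← tendsto_add_atTop_iff_nat 1]
  refine tendsto_of_tendsto_of_tendsto_of_le_of_le tendsto_const_nhds ?_ lower upper
  have := (X_tendsto h2).const_add (1 / (Fintype.card F : ℝ))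
  rwa [add_zero] at this

end Pool.Agent.U310.PV
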