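import Mathlib

set_option autoImplicit false
set_option linter.unusedSectionVars false

/-!
Permanental rank of matrices over a field: basic facts and the effect of an additional column.
-/

open Finset Matrix

namespace Pool.Agent.U310.PV

section perm

variable {R : Type*} [CommRing R]

/-- expansion of a permanent along the first column. -/
theorem permanent_succ_column_zero {n : ℕ} (A : Matrix (Fin (n + 1)) (Fin (n + 1)) R) :
    A.permanent = ∑ i : Fin (n + 1), A i 0 * (A.submatrix i.succAbove Fin.succ).permanent := by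
  unfold Matrix.permanent
  rw [Finset.univ_perm_fin_succ, ← Finset.univ_product_univ]
  simp only [Finset.sum_map, Equiv.toEmbedding_apply, Finset.sum_product, Matrix.submatrix,
    Matrix.of_apply]
  refine Finset.sum_congr rfl fun i _ => Fin.cases ?_ (fun i => ?_) i
  · simp only [Fin.prod_univ_succ, Finset.mul_sum,
      Equiv.Perm.decomposeFin_symm_apply_zero, Equiv.swap_self, Equiv.refl_apply,
      Equiv.Perm.decomposeFin_symm_apply_succ, Fin.succAbove_zero]
  · rw [Finset.mul_sum]
    have hbij := (Group.mulLeft_bijective (i.cycleRange)).sum_comp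
      (fun τ : Equiv.Perm (Fin n) => A i.succ 0 * ∏ j, A (i.succ.succAbove (τ j)) j.succ)
    rw [← hbij]
    refine Finset.sum_congr rfl fun σ _ => ?_
    simp only [Fin.prod_univ_succ, Equiv.Perm.coe_mul, Function.comp_apply,
      Fin.succAbove_cycleRange, Equiv.Perm.decomposeFin_symm_apply_zero,
      Equiv.Perm.decomposeFin_symm_apply_succ]

/-- the permanent is additive in each row. -/
theorem permanent_updateRow_sub {n : ℕ} (C : Matrix (Fin n) (Fin n) R) (i : Fin n)
    (u v : Fin n → R) :
    (C.updateRow i (u - v)).permanent =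
      (C.updateRow i u).permanent - (C.updateRow i v).permanent := by
  unfold Matrix.permanent
  rw [← Finset.sum_sub_distrib]
  refine Finset.sum_congr rfl fun σ _ => ?_
  rw [← Finset.mul_prod_erase univ _ (mem_univ (σ.symm i)),
    ← Finset.mul_prod_erase univ (fun c => C.updateRow i u (σ c) c) (mem_univ (σ.symm i)),
    ← Finset.mul_prod_erase univ (fun c => C.updateRow i v (σ c) c) (mem_univ (σ.symm i))]
  have h : ∀ w : Fin n → R, ∏ c ∈ univ.erase (σ.symm i), C.updateRow i w (σ c) c =
      ∏ c ∈ univ.erase (σ.symm i), C (σ c) c := by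
    intro w
    refine Finset.prod_congr rfl fun c hc => ?_
    have hne : σ c ≠ i := by
      intro h
      apply (Finset.mem_erase.1 hc).1
      rw [← h, Equiv.symm_apply_apply]
    rw [Matrix.updateRow_ne hne]
  rw [h, h, h]
  simp only [Equiv.apply_symm_apply, Matrix.updateRow_self, Pi.sub_apply]
  ring

/-- the permanent of the rows `T` of a matrix with `b` columns (`T` has `b` elements). -/
noncomputable def pr {a b : ℕ} (B : Matrix (Fin a) (Fin b) R) (T : Finset (Fin a)) : R :=
  ∑ τ : Fin b → Fin a, if Function.Injective τ ∧ univ.image τ = T then ∏ c, B (τ c) c else 0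

theorem pr_eq {a b : ℕ} (B : Matrix (Fin a) (Fin b) R) (f : Fin b → Fin a)
    (hf : Function.Injective f) : pr B (univ.image f) = (B.submatrix f id).permanent := by
  unfold pr Matrix.permanent
  rw [← Finset.sum_filter]
  symm
  refine Finset.sum_bij (fun (σ : Equiv.Perm (Fin b)) _ => f ∘ σ) ?_ ?_ ?_ ?_
  · intro σ _
    rw [Finset.mem_filter]
    refine ⟨mem_univ _, hf.comp σ.injective, ?_⟩
    ext x
    simp only [mem_image, mem_univ, true_and, Function.comp_apply]
    constructor
    · rintro ⟨c, rfl⟩; exact ⟨_, rfl⟩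
    · rintro ⟨c, rfl⟩; exact ⟨σ.symm c, by simp⟩
  · intro σ _ σ' _ h
    ext c
    have := hf (congrFun h c)
    rw [this]
  · intro τ hτ
    rw [Finset.mem_filter] at hτ
    obtain ⟨-, hτ, him⟩ := hτ
    have h1 : ∀ c, ∃ d, f d = τ c := by
      intro c
      have : τ c ∈ univ.image f := by rw [← him]; exact mem_image_of_mem _ (mem_univ _)
      simpa using this
    choose d hd using h1
    have hdi : Function.Injective d := by
      intro c c' h
      apply hτ
      rw [← hd, ← hd, h]
    refine ⟨Equiv.ofBijective d (Finite.injective_iff_bijective.1 hdi), mem_univ _, ?_⟩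
    funext c
    exact hd c
  · intro σ _
    rfl

end perm

variable {F : Type*} [Field F]

/-- the matrix `B` with the column `v` put in front. -/
def addCol {a b : ℕ} (v : Fin a → F) (B : Matrix (Fin a) (Fin b) F) :
    Matrix (Fin a) (Fin (b + 1)) F := fun i => Fin.cons (v i) (B i)

/-- the permanental rank of `B` is at least `r`. -/
def NZ {a b : ℕ} (r : ℕ) (B : Matrix (Fin a) (Fin b) F) : Prop :=
  ∃ (f : Fin r → Fin a) (g : Fin r → Fin b), Function.Injective f ∧ Function.Injective g ∧
    (B.submatrix f g).permanent ≠ 0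

theorem NZ_zero {a b : ℕ} (B : Matrix (Fin a) (Fin b) F) : NZ 0 B :=
  ⟨Fin.elim0, Fin.elim0, fun i => i.elim0, fun i => i.elim0, by
    rw [Matrix.permanent_isEmpty]; exact one_ne_zero⟩

theorem NZ_of_succ {a b r : ℕ} {B : Matrix (Fin a) (Fin b) F} (h : NZ (r + 1) B) : NZ r B := by
  obtain ⟨f, g, hf, hg, hne⟩ := h
  rw [permanent_succ_column_zero] at hne
  obtain ⟨i, -, hi⟩ := Finset.exists_ne_zero_of_sum_ne_zero hne
  refine ⟨f ∘ i.succAbove, g ∘ Fin.succ, hf.comp Fin.succAbove_right_injective,
    hg.comp (Fin.succ_injective _), ?_⟩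
  exact right_ne_zero_of_mul hi

theorem NZ_transpose {a b r : ℕ} (B : Matrix (Fin a) (Fin b) F) : NZ r Bᵀ ↔ NZ r B := by
  constructor
  · rintro ⟨f, g, hf, hg, h⟩
    refine ⟨g, f, hg, hf, ?_⟩
    rw [← Matrix.permanent_transpose]
    exact h
  · rintro ⟨f, g, hf, hg, h⟩
    refine ⟨g, f, hg, hf, ?_⟩
    rw [← Matrix.permanent_transpose]
    exact h

theorem NZ_addCol {a b r : ℕ} {B : Matrix (Fin a) (Fin b) F} (v : Fin a → F) (h : NZ r B) :
    NZ r (addCol v B) := by
  obtain ⟨f, g, hf, hg, h⟩ := h
  refine ⟨f, Fin.succ ∘ g, hf, (Fin.succ_injective _).comp hg, ?_⟩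
  exact h

theorem permanent_addCol {a b r : ℕ} (v : Fin a → F) (B : Matrix (Fin a) (Fin b) F)
    (f : Fin (r + 1) → Fin a) (g : Fin r → Fin b) :
    ((addCol v B).submatrix f (Fin.cons 0 (Fin.succ ∘ g) : Fin (r + 1) → Fin (b + 1))).permanent =
      ∑ k : Fin (r + 1), v (f k) * (B.submatrix (f ∘ k.succAbove) g).permanent := by
  rw [permanent_succ_column_zero]
  refine Finset.sum_congr rfl fun k _ => ?_
  congr 1

section count

variable [Fintype F] [DecidableEq F]

open Classical in
/-- Few columns `v` can be added without increasing the permanental rank. -/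
theorem card_bad_le {a b r : ℕ} {B : Matrix (Fin a) (Fin b) F} (h : NZ r B) :
    (univ.filter fun v : Fin a → F => ¬ NZ (r + 1) (addCol v B)).card ≤ Fintype.card F ^ r := by
  obtain ⟨f, g, hf, hg, hne⟩ := h
  have hcard : (univ : Finset (Fin r → F)).card = Fintype.card F ^ r := by
    rw [Finset.card_univ, Fintype.card_fun, Fintype.card_fin]
  rw [← hcard]
  refine Finset.card_le_card_of_injOn (fun v => v ∘ f) (fun _ _ => mem_coe.2 (mem_univ _)) ?_
  intro v hv v' hv' hvv
  simp only [coe_filter, mem_univ, true_and, Set.mem_ofPred_eq] at hv hv'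
  funext i
  by_cases hi : ∃ k, f k = i
  · obtain ⟨k, rfl⟩ := hi
    exact congrFun hvv k
  · push Not at hi
    have hinj : Function.Injective (Fin.cons i f : Fin (r + 1) → Fin a) := by
      rw [Fin.cons_injective_iff]
      refine ⟨?_, hf⟩
      rintro ⟨k, hk⟩
      exact hi k hk
    have hinj2 : Function.Injective (Fin.cons 0 (Fin.succ ∘ g) : Fin (r + 1) → Fin (b + 1)) := by
      rw [Fin.cons_injective_iff]
      refine ⟨?_, (Fin.succ_injective _).comp hg⟩
      rintro ⟨k, hk⟩
      exact Fin.succ_ne_zero _ hk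
    have key : ∀ w : Fin a → F, ¬ NZ (r + 1) (addCol w B) →
        w i * (B.submatrix f g).permanent + ∑ k : Fin r, w (f k) *
          (B.submatrix ((Fin.cons i f : Fin (r + 1) → Fin a) ∘ (Fin.succ k).succAbove) g).permanent
          = 0 := by
      intro w hw
      have h0 : ((addCol w B).submatrix (Fin.cons i f : Fin (r + 1) → Fin a)
          (Fin.cons 0 (Fin.succ ∘ g) : Fin (r + 1) → Fin (b + 1))).permanent = 0 := by
        by_contra hc
        exact hw ⟨_, _, hinj, hinj2, hc⟩
      rw [permanent_addCol, Fin.sum_univ_succ] at h0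
      have e1 : (Fin.cons i f : Fin (r + 1) → Fin a) ∘ (0 : Fin (r + 1)).succAbove = f := by
        funext k
        simp
      rw [e1] at h0
      exact h0
    have h1 := key v hv
    have h2 := key v' hv'
    have h3 : ∀ k, v (f k) = v' (f k) := fun k => congrFun hvv k
    simp only [h3] at h1
    have h4 : (v i - v' i) * (B.submatrix f g).permanent = 0 := by
      linear_combination h1 - h2
    rcases mul_eq_zero.1 h4 with h | h
    · exact sub_eq_zero.1 h
    · exact absurd h hne

open Classical in
/-- the number of `a × b` matrices of permanental rank less than `r`. -/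
noncomputable def N (F : Type*) [Field F] [Fintype F] [DecidableEq F] (a b r : ℕ) : ℕ :=
  (univ.filter fun B : Matrix (Fin a) (Fin b) F => ¬ NZ r B).card

/-- the probability that the permanental rank of an `a × b` matrix is less than `r`. -/
noncomputable def D (F : Type*) [Field F] [Fintype F] [DecidableEq F] (a b r : ℕ) : ℝ :=
  (N F a b r : ℝ) / (Fintype.card F : ℝ) ^ (a * b)

theorem D_nonneg (a b r : ℕ) : 0 ≤ D F a b r := by unfold D; positivity

theorem card_matrix (a b : ℕ) :
    Fintype.card (Matrix (Fin a) (Fin b) F) = Fintype.card F ^ (a * b) := by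
  rw [← Nat.card_eq_fintype_card, ← Nat.card_eq_fintype_card]
  unfold Matrix
  rw [Nat.card_eq_fintype_card, Nat.card_eq_fintype_card, Fintype.card_fun, Fintype.card_fun,
    Fintype.card_fin, Fintype.card_fin, ← pow_mul, mul_comm]

theorem q_pos : (0 : ℝ) < Fintype.card F := by exact_mod_cast Fintype.card_pos

theorem D_le_one (a b r : ℕ) : D F a b r ≤ 1 := by
  unfold D
  rw [div_le_one (pow_pos q_pos _)]
  have h : N F a b r ≤ Fintype.card (Matrix (Fin a) (Fin b) F) := Finset.card_le_univ _
  rw [card_matrix] at h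
  exact_mod_cast h

theorem D_zero (a b : ℕ) : D F a b 0 = 0 := by
  classical
  unfold D N
  rw [Finset.filter_false_of_mem]
  · simp
  · intro B _
    simpa using NZ_zero B

theorem N_mono (a b r : ℕ) : N F a b r ≤ N F a b (r + 1) := by
  classical
  refine Finset.card_le_card ?_
  intro B hB
  rw [Finset.mem_filter] at hB ⊢
  exact ⟨hB.1, fun h => hB.2 (NZ_of_succ h)⟩

theorem D_mono (a b r : ℕ) : D F a b r ≤ D F a b (r + 1) := by
  unfold D
  have h := N_mono (F := F) a b r
  have hq := pow_pos (q_pos (F := F)) (a * b)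
  gcongr

theorem N_comm (a b r : ℕ) : N F a b r = N F b a r := by
  classical
  unfold N
  refine Finset.card_bij (fun B _ => Bᵀ) ?_ ?_ ?_
  · intro B hB
    rw [Finset.mem_filter] at hB ⊢
    exact ⟨mem_univ _, by rw [NZ_transpose]; exact hB.2⟩
  · intro B _ B' _ h
    exact Matrix.transpose_injective h
  · intro B hB
    rw [Finset.mem_filter] at hB
    refine ⟨Bᵀ, ?_, Matrix.transpose_transpose B⟩
    rw [Finset.mem_filter]
    exact ⟨mem_univ _, by rw [NZ_transpose]; exact hB.2⟩

theorem D_comm (a b r : ℕ) : D F a b r = D F b a r := by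
  unfold D
  rw [N_comm, mul_comm]

/-- splitting off the first column. -/
def colEquiv (a b : ℕ) : (Fin a → F) × Matrix (Fin a) (Fin b) F ≃ Matrix (Fin a) (Fin (b + 1)) F where
  toFun p := addCol p.1 p.2
  invFun A := (fun i => A i 0, fun i j => A i j.succ)
  left_inv p := by
    ext <;> simp [addCol]
  right_inv A := by
    ext i j
    refine Fin.cases ?_ (fun j => ?_) j <;> simp [addCol]

theorem card_filter_addCol {a b : ℕ} (p : Matrix (Fin a) (Fin (b + 1)) F → Prop)
    [DecidablePred p] [∀ B : Matrix (Fin a) (Fin b) F, DecidablePred fun v => p (addCol v B)] :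
    (univ.filter p).card = ∑ B : Matrix (Fin a) (Fin b) F,
      (univ.filter fun v : Fin a → F => p (addCol v B)).card := by
  have h1 : ∀ B : Matrix (Fin a) (Fin b) F,
      (univ.filter fun v : Fin a → F => p (addCol v B)).card =
        ∑ v : Fin a → F, if p (addCol v B) then 1 else 0 := fun B => by
    rw [Finset.card_filter]
  simp_rw [h1]
  rw [Finset.card_filter, ← (colEquiv a b).sum_comp, Fintype.sum_prod_type, Finset.sum_comm]
  refine Finset.sum_congr rfl fun v _ => Finset.sum_congr rfl fun B _ => ?_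
  by_cases h : p (addCol B v) <;> simp [h, colEquiv]

theorem N_col (a b r : ℕ) : N F a (b + 1) (r + 1) + Fintype.card F ^ r * N F a b r ≤
    Fintype.card F ^ a * N F a b r + Fintype.card F ^ r * N F a b (r + 1) := by
  classical
  unfold N
  rw [card_filter_addCol]
  have h1 : ∀ B : Matrix (Fin a) (Fin b) F,
      (univ.filter fun v : Fin a → F => ¬ NZ (r + 1) (addCol v B)).card +
        Fintype.card F ^ r * (if ¬ NZ r B then 1 else 0) ≤
      Fintype.card F ^ a * (if ¬ NZ r B then 1 else 0) +
        Fintype.card F ^ r * (if ¬ NZ (r + 1) B then 1 else 0) := by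
    intro B
    by_cases h : NZ r B
    · rw [if_neg (not_not.2 h), mul_zero, mul_zero, add_zero, zero_add]
      by_cases h' : NZ (r + 1) B
      · rw [if_neg (not_not.2 h'), mul_zero, Nat.le_zero, Finset.card_eq_zero]
        refine Finset.filter_false_of_mem fun v _ => ?_
        rw [not_not]
        exact NZ_addCol v h'
      · rw [if_pos h', mul_one]
        exact card_bad_le h
    · have h' : ¬ NZ (r + 1) B := fun h'' => h (NZ_of_succ h'')
      rw [if_pos h, if_pos h', mul_one, mul_one]
      apply Nat.add_le_add_right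
      refine (Finset.card_le_univ _).trans ?_
      rw [Fintype.card_fun, Fintype.card_fin]
  have h2 := Finset.sum_le_sum (fun B (_ : B ∈ (univ : Finset (Matrix (Fin a) (Fin b) F))) => h1 B)
  rw [Finset.sum_add_distrib, Finset.sum_add_distrib, ← Finset.mul_sum, ← Finset.mul_sum,
    ← Finset.mul_sum, ← Finset.card_filter, ← Finset.card_filter] at h2
  exact h2

/-- adding a column. -/
theorem D_col (a b r : ℕ) (hr : r ≤ a) : D F a (b + 1) (r + 1) ≤
    D F a b r + (1 / (Fintype.card F : ℝ)) ^ (a - r) * (D F a b (r + 1) - D F a b r) := by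
  have h := N_col (F := F) a b r
  have hR : (N F a (b + 1) (r + 1) : ℝ) + (Fintype.card F : ℝ) ^ r * N F a b r ≤
    (Fintype.card F : ℝ) ^ a * N F a b r + (Fintype.card F : ℝ) ^ r * N F a b (r + 1) := by
    exact_mod_cast h
  have hq := q_pos (F := F)
  obtain ⟨d, rfl⟩ : ∃ d, a = r + d := ⟨a - r, by omega⟩
  rw [Nat.add_sub_cancel_left]
  unfold D
  have e1 : (r + d) * (b + 1) = (r + d) * b + (r + d) := by ring
  rw [e1, pow_add _ ((r + d) * b), pow_add _ r d]
  set Q : ℝ := (Fintype.card F : ℝ)
  set x : ℝ := (N F (r + d) (b + 1) (r + 1) : ℝ)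
  set y : ℝ := (N F (r + d) b r : ℝ)
  set z : ℝ := (N F (r + d) b (r + 1) : ℝ)
  have hrhs : y / Q ^ ((r + d) * b) + (1 / Q) ^ d *
      (z / Q ^ ((r + d) * b) - y / Q ^ ((r + d) * b)) =
      (Q ^ (r + d) * y + Q ^ r * z - Q ^ r * y) / (Q ^ ((r + d) * b) * (Q ^ r * Q ^ d)) := by
    rw [pow_add Q r d, _root_.one_div_pow]
    field_simp
    ring
  rw [hrhs]
  apply div_le_div_of_nonneg_right _ (by positivity)
  linarith

/-- adding a row. -/
theorem D_row (a b r : ℕ) (hr : r ≤ b) : D F (a + 1) b (r + 1) ≤
    D F a b r + (1 / (Fintype.card F : ℝ)) ^ (b - r) * (D F a b (r + 1) - D F a b r) := by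
  rw [D_comm (a + 1), D_comm a b r, D_comm a b (r + 1)]
  exact D_col b a r hr

theorem two_le_q : (2 : ℝ) ≤ Fintype.card F := by
  have : 1 < Fintype.card F := Fintype.one_lt_card
  exact_mod_cast this

theorem D_tail (a b r : ℕ) (hrb : r ≤ b) (hba : b ≤ a) :
    D F a b r ≤ (1 / (Fintype.card F : ℝ)) ^ (a - r) := by
  induction b generalizing r with
  | zero =>
    obtain rfl : r = 0 := by omega
    rw [D_zero]
    have := q_pos (F := F)
    positivity
  | succ b ih =>
    rcases r with _ | r
    · rw [D_zero]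
      have := q_pos (F := F)
      positivity
    · have h1 := D_col (F := F) a b r (by omega)
      have h2 := ih r (by omega) (by omega)
      have h3 := D_le_one (F := F) a b (r + 1)
      have h4 := D_nonneg (F := F) a b r
      have hq := q_pos (F := F)
      have h2q := two_le_q (F := F)
      obtain ⟨d, hd⟩ : ∃ d, a - r = d + 1 := ⟨a - r - 1, by omega⟩
      have hd' : a - (r + 1) = d := by omega
      rw [hd] at h1 h2
      rw [hd']
      have hp : (0 : ℝ) < (1 / (Fintype.card F : ℝ)) ^ d := by positivity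
      have e : (1 / (Fintype.card F : ℝ)) ^ (d + 1) =
        (1 / (Fintype.card F : ℝ)) ^ d * (1 / (Fintype.card F : ℝ)) := pow_succ _ _
      have h5 : (1 / (Fintype.card F : ℝ)) ≤ 1 / 2 := by
        apply one_div_le_one_div_of_le (by norm_num) h2q
      have h6 : (1 / (Fintype.card F : ℝ)) ^ (d + 1) ≤ (1 / (Fintype.card F : ℝ)) ^ d * (1 / 2) := by
        rw [e]
        exact mul_le_mul_of_nonneg_left h5 hp.le
      have hp' : (0 : ℝ) < (1 / (Fintype.card F : ℝ)) ^ (d + 1) := by positivity
      have h7 : (1 / (Fintype.card F : ℝ)) ^ (d + 1) * (D F a b (r + 1) - D F a b r) ≤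
          (1 / (Fintype.card F : ℝ)) ^ (d + 1) * 1 := by
        apply mul_le_mul_of_nonneg_left _ hp'.le
        linarith
      linarith

end count

end Pool.Agent.U310.PV
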