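import Mathlib

set_option autoImplicit false
set_option linter.unusedSectionVars false

/-!
Symmetric matrices with zero diagonal over a finite field of odd characteristic: the number of
pairs of equal rows against the size of the kernel.
-/

open Finset Matrix

namespace Pool.Agent.U310.PV

variable {F : Type*} [Field F] [Fintype F] [DecidableEq F]

/-- the number of solutions of `M v = 0`. -/
def kerCard {n : ℕ} (M : Matrix (Fin n) (Fin n) F) : ℕ :=
  (univ.filter fun v : Fin n → F => M *ᵥ v = 0).card

/-- the number of ordered pairs of equal rows. -/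
def eqPairs {n : ℕ} (M : Matrix (Fin n) (Fin n) F) : ℕ :=
  (univ.filter fun p : Fin n × Fin n => M p.1 = M p.2).card

/-- a nonzero quadratic form vanishes at few points. -/
theorem card_isotropic_le {n : ℕ} (M : Matrix (Fin n) (Fin n) F) (w : Fin n → F)
    (hw : w ⬝ᵥ (M *ᵥ w) ≠ 0) :
    Fintype.card F * (univ.filter fun v : Fin n → F => v ⬝ᵥ (M *ᵥ v) = 0).card ≤
      2 * Fintype.card F ^ n := by
  have h1 : ∀ t : F, (univ.filter fun v : Fin n → F =>
      (v + t • w) ⬝ᵥ (M *ᵥ (v + t • w)) = 0).card =
      (univ.filter fun v : Fin n → F => v ⬝ᵥ (M *ᵥ v) = 0).card := by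
    intro t
    refine Finset.card_bij (fun v _ => v + t • w) ?_ ?_ ?_
    · intro v hv
      rw [Finset.mem_filter] at hv ⊢
      exact ⟨mem_univ _, hv.2⟩
    · intro v _ v' _ h
      exact add_right_cancel h
    · intro v hv
      rw [Finset.mem_filter] at hv
      refine ⟨v - t • w, ?_, sub_add_cancel _ _⟩
      rw [Finset.mem_filter, sub_add_cancel]
      exact ⟨mem_univ _, hv.2⟩
  have h2 : ∑ t : F, (univ.filter fun v : Fin n → F =>
      (v + t • w) ⬝ᵥ (M *ᵥ (v + t • w)) = 0).card =
      Fintype.card F * (univ.filter fun v : Fin n → F => v ⬝ᵥ (M *ᵥ v) = 0).card := by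
    rw [Finset.sum_congr rfl (fun t _ => h1 t), Finset.sum_const, Finset.card_univ, smul_eq_mul]
  rw [← h2]
  have h3 : ∑ t : F, (univ.filter fun v : Fin n → F =>
      (v + t • w) ⬝ᵥ (M *ᵥ (v + t • w)) = 0).card =
      ∑ v : Fin n → F, (univ.filter fun t : F =>
      (v + t • w) ⬝ᵥ (M *ᵥ (v + t • w)) = 0).card := by
    simp_rw [Finset.card_filter]
    rw [Finset.sum_comm]
  rw [h3]
  have h4 : ∀ v : Fin n → F, (univ.filter fun t : F =>
      (v + t • w) ⬝ᵥ (M *ᵥ (v + t • w)) = 0).card ≤ 2 := by
    intro v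
    set A := w ⬝ᵥ (M *ᵥ w) with hA
    set B := v ⬝ᵥ (M *ᵥ w) + w ⬝ᵥ (M *ᵥ v) with hB
    set C := v ⬝ᵥ (M *ᵥ v) with hC
    let P : Polynomial F := Polynomial.C A * Polynomial.X ^ 2 + Polynomial.C B * Polynomial.X +
      Polynomial.C C
    have hdeg : P.natDegree = 2 := Polynomial.natDegree_quadratic hw
    have hP : P ≠ 0 := by
      intro h
      rw [h, Polynomial.natDegree_zero] at hdeg
      omega
    have hsub : (univ.filter fun t : F => (v + t • w) ⬝ᵥ (M *ᵥ (v + t • w)) = 0) ⊆
        P.roots.toFinset := by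
      intro t ht
      rw [Finset.mem_filter] at ht
      rw [Multiset.mem_toFinset, Polynomial.mem_roots hP, Polynomial.IsRoot.def]
      have : (v + t • w) ⬝ᵥ (M *ᵥ (v + t • w)) = A * t ^ 2 + B * t + C := by
        rw [Matrix.mulVec_add, Matrix.mulVec_smul, add_dotProduct, dotProduct_add, dotProduct_add,
          smul_dotProduct, smul_dotProduct, dotProduct_smul, dotProduct_smul]
        simp only [smul_eq_mul, hA, hB, hC]
        ring
      rw [this] at ht
      simp only [P, Polynomial.eval_add, Polynomial.eval_mul, Polynomial.eval_C,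
        Polynomial.eval_pow, Polynomial.eval_X]
      exact ht.2
    calc _ ≤ P.roots.toFinset.card := Finset.card_le_card hsub
      _ ≤ Multiset.card P.roots := Multiset.toFinset_card_le _
      _ ≤ P.natDegree := Polynomial.card_roots' _
      _ = 2 := hdeg
  calc ∑ v : Fin n → F, (univ.filter fun t : F =>
      (v + t • w) ⬝ᵥ (M *ᵥ (v + t • w)) = 0).card ≤ ∑ v : Fin n → F, 2 :=
        Finset.sum_le_sum fun v _ => h4 v
    _ = 2 * Fintype.card F ^ n := by
      rw [Finset.sum_const, Finset.card_univ, Fintype.card_fun, Fintype.card_fin, smul_eq_mul,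
        mul_comm]

/-- the solutions of `v ᵥ* M = M j` are as many as those of `M v = 0`, for symmetric `M`. -/
theorem card_fiber {n : ℕ} (M : Matrix (Fin n) (Fin n) F) (hs : Mᵀ = M) (j : Fin n) :
    (univ.filter fun v : Fin n → F => v ᵥ* M = M j).card = kerCard M := by
  have h1 : (Pi.single j 1 : Fin n → F) ᵥ* M = M j := by
    rw [Matrix.single_one_vecMul]
    rfl
  unfold kerCard
  refine Finset.card_bij (fun v _ => v - Pi.single j 1) ?_ ?_ ?_
  · intro v hv
    rw [Finset.mem_filter] at hv ⊢
    refine ⟨mem_univ _, ?_⟩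
    rw [← hs, Matrix.mulVec_transpose, Matrix.sub_vecMul, hv.2, h1, sub_self]
  · intro v _ v' _ h
    exact sub_left_injective h
  · intro v hv
    rw [Finset.mem_filter] at hv
    refine ⟨v + Pi.single j 1, ?_, add_sub_cancel_right _ _⟩
    rw [Finset.mem_filter]
    refine ⟨mem_univ _, ?_⟩
    rw [Matrix.add_vecMul, h1, ← Matrix.mulVec_transpose, hs, hv.2, zero_add]

/-- the key inequality. -/
theorem hollow_ineq {n : ℕ} (M : Matrix (Fin n) (Fin n) F) (h2 : (2 : F) ≠ 0) (hs : Mᵀ = M)
    (hd : ∀ i, M i i = 0) (hM : M ≠ 0) :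
    Fintype.card F * n ^ 2 * kerCard M ≤ 2 * Fintype.card F ^ n * eqPairs M := by
  -- the distinct rows
  set R : Finset (Fin n → F) := univ.image fun j => M j with hR
  -- a vector where the quadratic form does not vanish
  obtain ⟨w, hw⟩ : ∃ w : Fin n → F, w ⬝ᵥ (M *ᵥ w) ≠ 0 := by
    have h3 : ∃ i j, M i j ≠ 0 := by
      by_contra hc
      push Not at hc
      exact hM (Matrix.ext hc)
    obtain ⟨i, j, hij⟩ := h3
    refine ⟨Pi.single i 1 + Pi.single j 1, ?_⟩
    have hji : M j i = M i j := by
      conv_lhs => rw [← hs]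
      rfl
    rw [Matrix.mulVec_add, add_dotProduct, dotProduct_add, dotProduct_add,
      single_one_dotProduct, single_one_dotProduct, single_one_dotProduct, single_one_dotProduct,
      Matrix.mulVec_single_one, Matrix.mulVec_single_one]
    simp only [Matrix.col_apply, hd, hji, zero_add, add_zero]
    rw [← two_mul]
    exact mul_ne_zero h2 hij
  have hZ := card_isotropic_le M w hw
  -- the fibres over the rows are disjoint subsets of the isotropic vectors
  have hfib : R.card * kerCard M ≤ (univ.filter fun v : Fin n → F => v ⬝ᵥ (M *ᵥ v) = 0).card := by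
    have h3 : R.card * kerCard M = ∑ ρ ∈ R, (univ.filter fun v : Fin n → F => v ᵥ* M = ρ).card := by
      rw [Finset.sum_congr rfl (g := fun _ => kerCard M), Finset.sum_const, smul_eq_mul]
      intro ρ hρ
      obtain ⟨j, -, rfl⟩ := Finset.mem_image.1 hρ
      exact card_fiber M hs j
    rw [h3, ← Finset.card_biUnion]
    · apply Finset.card_le_card
      intro v hv
      rw [Finset.mem_biUnion] at hv
      obtain ⟨ρ, hρ, hv⟩ := hv
      obtain ⟨j, -, rfl⟩ := Finset.mem_image.1 hρ
      rw [Finset.mem_filter] at hv ⊢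
      refine ⟨mem_univ _, ?_⟩
      have h4 : M *ᵥ v = M j := by
        conv_lhs => rw [← hs]
        rw [Matrix.mulVec_transpose]
        exact hv.2
      have h5 : M j ⬝ᵥ v = (M *ᵥ v) j := rfl
      rw [h4, dotProduct_comm, h5, h4, hd]
    · intro ρ _ ρ' _ hne
      rw [Function.onFun, Finset.disjoint_left]
      intro v hv hv'
      rw [Finset.mem_filter] at hv hv'
      exact hne (hv.2.symm.trans hv'.2)
  -- Cauchy-Schwarz
  have hCS : n ^ 2 ≤ R.card * eqPairs M := by
    let r : Fin n → Fin n → F := fun j => M j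
    have h3 : n = ∑ ρ ∈ R, (univ.filter fun j : Fin n => r j = ρ).card := by
      have := Finset.card_eq_sum_card_image r (univ : Finset (Fin n))
      rwa [Finset.card_univ, Fintype.card_fin] at this
    have h4 : eqPairs M = ∑ ρ ∈ R, (univ.filter fun j : Fin n => r j = ρ).card ^ 2 := by
      unfold eqPairs
      rw [Finset.card_eq_sum_card_fiberwise (f := fun p : Fin n × Fin n => M p.1) (t := R)]
      · refine Finset.sum_congr rfl fun ρ _ => ?_
        rw [sq, ← Finset.card_product]
        congr 1
        ext ⟨j, j'⟩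
        simp only [Finset.mem_filter, mem_univ, true_and, Finset.mem_product]
        constructor
        · rintro ⟨h5, h6⟩
          exact ⟨h6, h5.symm.trans h6⟩
        · rintro ⟨h5, h6⟩
          exact ⟨h5.trans h6.symm, h5⟩
      · intro p _
        exact Finset.mem_coe.2 (Finset.mem_image_of_mem _ (mem_univ _))
    calc n ^ 2 = (∑ ρ ∈ R, (univ.filter fun j : Fin n => r j = ρ).card) ^ 2 := by rw [← h3]
      _ ≤ R.card * ∑ ρ ∈ R, (univ.filter fun j : Fin n => r j = ρ).card ^ 2 :=
        sq_sum_le_card_mul_sum_sq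
      _ = R.card * eqPairs M := by rw [h4]
  calc Fintype.card F * n ^ 2 * kerCard M
      ≤ Fintype.card F * (R.card * eqPairs M) * kerCard M := by gcongr
    _ = Fintype.card F * (R.card * kerCard M) * eqPairs M := by ring
    _ ≤ Fintype.card F * (univ.filter fun v : Fin n → F => v ⬝ᵥ (M *ᵥ v) = 0).card *
        eqPairs M := by gcongr
    _ ≤ 2 * Fintype.card F ^ n * eqPairs M := by gcongr

end Pool.Agent.U310.PV
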