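import Pool.Agent.U310.PV.Basic
import Pool.Agent.U310.PV.Hollow

set_option autoImplicit false
set_option linter.unusedSectionVars false

/-!
The symmetric matrix of the permanents of an `(m+2) × m` matrix with two rows removed.
-/

open Finset Matrix

namespace Pool.Agent.U310.PV

variable {F : Type*} [Field F]

/-- a subset of `Fin (n+1)` with `n` elements is the complement of a point. -/
theorem eq_compl_singleton {n : ℕ} (T : Finset (Fin (n + 1))) (hT : T.card = n) :
    ∃ s, T = {s}ᶜ := by
  have h : Tᶜ.card = 1 := by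
    rw [Finset.card_compl, Fintype.card_fin, hT]
    omega
  obtain ⟨s, hs⟩ := Finset.card_eq_one.1 h
  exact ⟨s, by rw [← hs, compl_compl]⟩

theorem eq_compl_pair {n : ℕ} (T : Finset (Fin (n + 2))) (hT : T.card = n) :
    ∃ s t, s ≠ t ∧ T = {s, t}ᶜ := by
  have h : Tᶜ.card = 2 := by
    rw [Finset.card_compl, Fintype.card_fin, hT]
    omega
  obtain ⟨s, t, hst, hs⟩ := Finset.card_eq_two.1 h
  exact ⟨s, t, hst, by rw [← hs, compl_compl]⟩

/-- full permanental rank in terms of the row sets. -/
theorem NZ_full_iff {a b : ℕ} (B : Matrix (Fin a) (Fin b) F) :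
    NZ b B ↔ ∃ T : Finset (Fin a), T.card = b ∧ pr B T ≠ 0 := by
  constructor
  · rintro ⟨f, g, hf, hg, h⟩
    refine ⟨univ.image f, ?_, ?_⟩
    · rw [Finset.card_image_of_injective _ hf, Finset.card_univ, Fintype.card_fin]
    · rw [pr_eq B f hf]
      have hb : Function.Bijective g := Finite.injective_iff_bijective.1 hg
      have : B.submatrix f g = (B.submatrix f id).submatrix id (Equiv.ofBijective g hb) := by
        ext i j
        rfl
      rwa [this, Matrix.permanent_permute_rows] at h
  · rintro ⟨T, hT, h⟩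
    have e := T.equivFinOfCardEq hT
    let f : Fin b → Fin a := fun i => (e.symm i : Fin a)
    have hf : Function.Injective f := fun i j hij => e.symm.injective (Subtype.ext hij)
    have him : univ.image f = T := by
      ext x
      simp only [mem_image, mem_univ, true_and]
      constructor
      · rintro ⟨i, rfl⟩
        exact (e.symm i).2
      · intro hx
        exact ⟨e ⟨x, hx⟩, by simp [f]⟩
    refine ⟨f, id, hf, Function.injective_id, ?_⟩
    rwa [← pr_eq B f hf, him]

theorem image_succAbove {n : ℕ} (s : Fin (n + 1)) : univ.image s.succAbove = {s}ᶜ := by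
  ext x
  simp only [mem_image, mem_univ, true_and, mem_compl, mem_singleton]
  exact ⟨fun ⟨k, hk⟩ => hk ▸ Fin.succAbove_ne s k, fun h => Fin.exists_succAbove_eq h⟩

theorem image_succAbove_comp {n : ℕ} (s : Fin (n + 2)) (k : Fin (n + 1)) :
    univ.image (s.succAbove ∘ k.succAbove) = {s, s.succAbove k}ᶜ := by
  ext x
  simp only [mem_image, mem_univ, true_and, mem_compl, mem_insert, mem_singleton,
    Function.comp_apply, not_or]
  constructor
  · rintro ⟨i, rfl⟩
    refine ⟨Fin.succAbove_ne _ _, fun h => ?_⟩
    exact Fin.succAbove_ne _ _ (Fin.succAbove_right_injective h)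
  · rintro ⟨h1, h2⟩
    obtain ⟨y, rfl⟩ := Fin.exists_succAbove_eq h1
    have h3 : y ≠ k := fun h => h2 (by rw [h])
    obtain ⟨z, rfl⟩ := Fin.exists_succAbove_eq h3
    exact ⟨z, rfl⟩

/-- the `(m+1) × m` case: the permanental rank is not full iff all maximal permanents vanish. -/
theorem not_NZ_iff_one {m : ℕ} (A : Matrix (Fin (m + 1)) (Fin m) F) :
    ¬ NZ m A ↔ ∀ s, pr A {s}ᶜ = 0 := by
  rw [NZ_full_iff]
  push Not
  constructor
  · intro h s
    apply h
    rw [Finset.card_compl, Fintype.card_fin, Finset.card_singleton]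
    omega
  · intro h T hT
    obtain ⟨s, rfl⟩ := eq_compl_singleton T hT
    exact h s

/-- the symmetric matrix of the maximal permanents of an `(m+2) × m` matrix. -/
noncomputable def cof {m : ℕ} (B : Matrix (Fin (m + 2)) (Fin m) F) :
    Matrix (Fin (m + 2)) (Fin (m + 2)) F := fun s t => if s = t then 0 else pr B {s, t}ᶜ

theorem cof_diag {m : ℕ} (B : Matrix (Fin (m + 2)) (Fin m) F) (s : Fin (m + 2)) :
    cof B s s = 0 := if_pos rfl

theorem cof_transpose {m : ℕ} (B : Matrix (Fin (m + 2)) (Fin m) F) : (cof B)ᵀ = cof B := by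
  ext s t
  rw [Matrix.transpose_apply]
  unfold cof
  by_cases h : s = t
  · rw [if_pos h, if_pos h.symm]
  · rw [if_neg h, if_neg (Ne.symm h), Finset.pair_comm]

theorem not_NZ_iff_two {m : ℕ} (B : Matrix (Fin (m + 2)) (Fin m) F) :
    ¬ NZ m B ↔ cof B = 0 := by
  rw [NZ_full_iff]
  push Not
  constructor
  · intro h
    ext s t
    unfold cof
    split_ifs with hst
    · rfl
    · apply h
      rw [Finset.card_compl, Fintype.card_fin, Finset.card_pair hst]
      omega
  · intro h T hT
    obtain ⟨s, t, hst, rfl⟩ := eq_compl_pair T hT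
    have := congrFun (congrFun h s) t
    unfold cof at this
    rwa [if_neg hst] at this

theorem cof_mulVec {m : ℕ} (B : Matrix (Fin (m + 2)) (Fin m) F) (v : Fin (m + 2) → F)
    (s : Fin (m + 2)) : (cof B *ᵥ v) s = pr (addCol v B) {s}ᶜ := by
  rw [← image_succAbove, pr_eq _ _ Fin.succAbove_right_injective]
  have h1 : (addCol v B).submatrix s.succAbove id =
      (addCol v B).submatrix s.succAbove (Fin.cons 0 (Fin.succ ∘ id) : Fin (m + 1) → Fin (m + 1)) := by
    congr 1
    funext j
    refine Fin.cases ?_ (fun j => ?_) j <;> simp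
  rw [h1, permanent_addCol, Matrix.mulVec, dotProduct, Fin.sum_univ_succAbove _ s, cof_diag,
    zero_mul, zero_add]
  refine Finset.sum_congr rfl fun k _ => ?_
  rw [mul_comm, ← pr_eq B _ (Fin.succAbove_right_injective.comp Fin.succAbove_right_injective),
    image_succAbove_comp]
  unfold cof
  rw [if_neg (Ne.symm (Fin.succAbove_ne s k))]

theorem not_NZ_addCol_iff {m : ℕ} (B : Matrix (Fin (m + 2)) (Fin m) F) (v : Fin (m + 2) → F) :
    ¬ NZ (m + 1) (addCol v B) ↔ cof B *ᵥ v = 0 := by
  rw [not_NZ_iff_one]
  constructor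
  · intro h
    funext s
    rw [cof_mulVec, h]
    rfl
  · intro h s
    rw [← cof_mulVec, h]
    rfl

/-- relabelling the rows. -/
theorem pr_submatrix {a b : ℕ} (B : Matrix (Fin a) (Fin b) F) (ε : Equiv.Perm (Fin a))
    (T : Finset (Fin a)) : pr (B.submatrix ε id) T = pr B (T.image ε) := by
  unfold pr
  symm
  rw [← (Equiv.arrowCongr (Equiv.refl (Fin b)) ε).sum_comp]
  refine Finset.sum_congr rfl fun τ _ => ?_
  have h1 : ∀ c, (Equiv.arrowCongr (Equiv.refl (Fin b)) ε) τ c = ε (τ c) := fun c => rfl
  have h2 : (Equiv.arrowCongr (Equiv.refl (Fin b)) ε) τ = ε ∘ τ := rfl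
  have h3 : (Function.Injective τ ∧ univ.image τ = T) ↔
      (Function.Injective (ε ∘ τ) ∧ univ.image (ε ∘ τ) = T.image ε) := by
    rw [ε.injective.of_comp_iff]
    have h4 : univ.image (ε ∘ τ) = (univ.image τ).image ε := by
      rw [Finset.image_image]
    rw [h4]
    constructor
    · rintro ⟨h, h'⟩
      exact ⟨h, by rw [h']⟩
    · rintro ⟨h, h'⟩
      exact ⟨h, Finset.image_injective ε.injective h'⟩
  rw [h2]
  by_cases h : Function.Injective τ ∧ univ.image τ = T
  · rw [if_pos h, if_pos (h3.1 h)]
    rfl
  · rw [if_neg h, if_neg (fun h' => h (h3.2 h'))]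

theorem cof_submatrix {m : ℕ} (B : Matrix (Fin (m + 2)) (Fin m) F)
    (ε : Equiv.Perm (Fin (m + 2))) (s t : Fin (m + 2)) :
    cof (B.submatrix ε id) s t = cof B (ε s) (ε t) := by
  unfold cof
  by_cases h : s = t
  · rw [if_pos h, if_pos (by rw [h])]
  · rw [if_neg h, if_neg (fun h' => h (ε.injective h')), pr_submatrix]
    congr 1
    ext x
    simp only [mem_image, mem_compl, mem_insert, mem_singleton, not_or]
    constructor
    · rintro ⟨y, ⟨h1, h2⟩, rfl⟩
      exact ⟨fun h' => h1 (ε.injective h'), fun h' => h2 (ε.injective h')⟩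
    · rintro ⟨h1, h2⟩
      exact ⟨ε.symm x, ⟨fun h' => h1 (by rw [← h', Equiv.apply_symm_apply]),
        fun h' => h2 (by rw [← h', Equiv.apply_symm_apply])⟩, by simp⟩

/-- the matrix with the row `w` on top of `C`. -/
def addRow {a b : ℕ} (w : Fin b → F) (C : Matrix (Fin a) (Fin b) F) :
    Matrix (Fin (a + 1)) (Fin b) F := Fin.cons w C

theorem pr_addRow_zero {m : ℕ} (w : Fin m → F) (C : Matrix (Fin m) (Fin m) F) :
    pr (addRow w C) {0}ᶜ = C.permanent := by
  rw [← image_succAbove, pr_eq _ _ Fin.succAbove_right_injective]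
  congr 1

theorem inj_update {m : ℕ} {α : Type*} [DecidableEq α] (e : Fin m → α) (he : Function.Injective e)
    (i : Fin m) (x : α) (hx : ∀ k, e k ≠ x) : Function.Injective (Function.update e i x) := by
  intro k l h
  by_cases hk : k = i
  · subst hk
    by_cases hl : l = k
    · exact hl.symm
    · rw [Function.update_self, Function.update_of_ne hl] at h
      exact absurd h.symm (hx l)
  · by_cases hl : l = i
    · subst hl
      rw [Function.update_self, Function.update_of_ne hk] at h
      exact absurd h (hx k)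
    · rw [Function.update_of_ne hk, Function.update_of_ne hl] at h
      exact he h

theorem image_update {m : ℕ} {α : Type*} [DecidableEq α] (e : Fin m → α)
    (he : Function.Injective e) (i : Fin m) (x : α) :
    univ.image (Function.update e i x) = insert x ((univ.image e).erase (e i)) := by
  ext y
  simp only [mem_image, mem_univ, true_and, mem_insert, mem_erase]
  constructor
  · rintro ⟨k, rfl⟩
    by_cases hk : k = i
    · subst hk
      left
      rw [Function.update_self]
    · right
      rw [Function.update_of_ne hk]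
      exact ⟨fun h => hk (he h), k, rfl⟩
  · rintro (rfl | ⟨h, k, rfl⟩)
    · exact ⟨i, Function.update_self _ _ _⟩
    · refine ⟨k, Function.update_of_ne ?_ _ _⟩
      rintro rfl
      exact h rfl

theorem pr_addRow_succ {m : ℕ} (w : Fin m → F) (C : Matrix (Fin m) (Fin m) F) (i : Fin m) :
    pr (addRow w C) {i.succ}ᶜ = (C.updateRow i w).permanent := by
  have hinj := inj_update (Fin.succ : Fin m → Fin (m + 1)) (Fin.succ_injective _) i 0
    (fun k => Fin.succ_ne_zero k)
  have him : univ.image (Function.update (Fin.succ : Fin m → Fin (m + 1)) i 0) = {i.succ}ᶜ := by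
    rw [image_update _ (Fin.succ_injective _)]
    ext y
    simp only [mem_insert, mem_erase, mem_image, mem_univ, true_and, mem_compl, mem_singleton]
    constructor
    · rintro (rfl | ⟨h, -⟩)
      · exact (Fin.succ_ne_zero i).symm
      · exact h
    · revert y
      refine Fin.cases (fun _ => Or.inl rfl) (fun k hk => Or.inr ⟨hk, k, rfl⟩)
  rw [← him, pr_eq _ _ hinj]
  congr 1
  ext k j
  by_cases hk : k = i
  · subst hk
    rw [Matrix.submatrix_apply, Function.update_self, Matrix.updateRow_self]
    rfl
  · rw [Matrix.submatrix_apply, Function.update_of_ne hk, Matrix.updateRow_ne hk]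
    rfl

/-- the rows `0` and `1` of `cof B` are equal iff a certain `(m+1) × m` matrix does not have full
permanental rank. -/
theorem cof_row_eq_iff {m : ℕ} (B : Matrix (Fin (m + 2)) (Fin m) F) :
    cof B 0 = cof B 1 ↔
      ¬ NZ m (addRow (B 1 - B 0) (B.submatrix (fun i : Fin m => i.succ.succ) id)) := by
  set C := B.submatrix (fun i : Fin m => i.succ.succ) id with hC
  set e : Fin m → Fin (m + 2) := fun i => i.succ.succ with he
  have heinj : Function.Injective e := fun i j h => Fin.succ_injective _ (Fin.succ_injective _ h)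
  have he0 : ∀ k, e k ≠ 0 := fun k => Fin.succ_ne_zero _
  have he1 : ∀ k, e k ≠ 1 := by
    intro k h
    have : (k.succ : Fin (m + 1)) = 0 := Fin.succ_injective _ h
    exact Fin.succ_ne_zero _ this
  have hall : ∀ y : Fin (m + 2), y = 0 ∨ y = 1 ∨ ∃ k, y = e k := by
    intro y
    refine Fin.cases (Or.inl rfl) (fun z => ?_) y
    refine Fin.cases (Or.inr (Or.inl rfl)) (fun k => Or.inr (Or.inr ⟨k, rfl⟩)) z
  have h01 : (0 : Fin (m + 2)) ≠ 1 := by
    intro h
    exact (Fin.succ_ne_zero (0 : Fin (m + 1))) h.symm
  -- the entry (0, 1)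
  have hA : cof B 0 1 = C.permanent := by
    unfold cof
    rw [if_neg h01, hC]
    have him : univ.image e = {0, 1}ᶜ := by
      ext y
      simp only [mem_image, mem_univ, true_and, mem_compl, mem_insert, mem_singleton, not_or]
      constructor
      · rintro ⟨k, rfl⟩
        exact ⟨he0 k, he1 k⟩
      · rintro ⟨h1, h2⟩
        rcases hall y with h | h | ⟨k, h⟩
        · exact absurd h h1
        · exact absurd h h2
        · exact ⟨k, h.symm⟩
    rw [← him, pr_eq B e heinj]
  -- the entries (0, i+2)
  have hB : ∀ i, cof B 0 (e i) = (C.updateRow i (B 1)).permanent := by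
    intro i
    unfold cof
    rw [if_neg (Ne.symm (he0 i))]
    have hinj := inj_update e heinj i 1 he1
    have him : univ.image (Function.update e i 1) = {0, e i}ᶜ := by
      rw [image_update _ heinj]
      ext y
      simp only [mem_insert, mem_erase, mem_image, mem_univ, true_and, mem_compl, mem_singleton,
        not_or]
      constructor
      · rintro (rfl | ⟨h, k, rfl⟩)
        · exact ⟨Ne.symm h01, Ne.symm (he1 i)⟩
        · exact ⟨he0 k, h⟩
      · rintro ⟨h1, h2⟩
        rcases hall y with h | h | ⟨k, h⟩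
        · exact absurd h h1
        · exact Or.inl h
        · exact Or.inr ⟨h2, k, h.symm⟩
    rw [← him, pr_eq _ _ hinj]
    congr 1
    ext k j
    by_cases hk : k = i
    · subst hk
      simp
    · simp [Matrix.updateRow_ne hk, Function.update_of_ne hk, hC, he]
  have hB' : ∀ i, cof B 1 (e i) = (C.updateRow i (B 0)).permanent := by
    intro i
    unfold cof
    rw [if_neg (Ne.symm (he1 i))]
    have hinj := inj_update e heinj i 0 he0
    have him : univ.image (Function.update e i 0) = {1, e i}ᶜ := by
      rw [image_update _ heinj]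
      ext y
      simp only [mem_insert, mem_erase, mem_image, mem_univ, true_and, mem_compl, mem_singleton,
        not_or]
      constructor
      · rintro (rfl | ⟨h, k, rfl⟩)
        · exact ⟨h01, Ne.symm (he0 i)⟩
        · exact ⟨he1 k, h⟩
      · rintro ⟨h1, h2⟩
        rcases hall y with h | h | ⟨k, h⟩
        · exact Or.inl h
        · exact absurd h h1
        · exact Or.inr ⟨h2, k, h.symm⟩
    rw [← him, pr_eq _ _ hinj]
    congr 1
    ext k j
    by_cases hk : k = i
    · subst hk
      simp
    · simp [Matrix.updateRow_ne hk, Function.update_of_ne hk, hC, he]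
  rw [not_NZ_iff_one]
  constructor
  · intro h s
    refine Fin.cases ?_ (fun i => ?_) s
    · rw [pr_addRow_zero, ← hA, h, cof_diag]
    · rw [pr_addRow_succ, permanent_updateRow_sub, ← hB, ← hB', h, sub_self]
  · intro h
    have h0 : C.permanent = 0 := by rw [← pr_addRow_zero (B 1 - B 0) C]; exact h 0
    funext t
    rcases hall t with rfl | rfl | ⟨k, rfl⟩
    · rw [cof_diag, ← cof_transpose, Matrix.transpose_apply, hA, h0]
    · rw [cof_diag, hA, h0]
    · have h1 := h k.succ
      rw [pr_addRow_succ, permanent_updateRow_sub, ← hB, ← hB'] at h1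
      exact sub_eq_zero.1 h1

section count

variable [Fintype F] [DecidableEq F]

/-- `(b₀, w, C) ↦` the matrix with the rows `b₀`, `b₀ + w`, `C`. -/
def rowEquiv (m : ℕ) : (Fin m → F) × Matrix (Fin (m + 1)) (Fin m) F ≃
    Matrix (Fin (m + 2)) (Fin m) F where
  toFun p := addRow p.1 (addRow (p.1 + p.2 0) (fun i => p.2 i.succ))
  invFun B := (B 0, addRow (B 1 - B 0) (fun i => B i.succ.succ))
  left_inv p := by
    ext i j
    · simp [addRow]
    · refine Fin.cases ?_ (fun i => ?_) i
      · have : (1 : Fin (m + 2)) = Fin.succ 0 := rfl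
        simp [addRow, this, -Fin.succ_zero_eq_one, -Fin.succ_zero_eq_one']
      · simp [addRow]
  right_inv B := by
    ext i j
    refine Fin.cases ?_ (fun i => ?_) i
    · simp [addRow]
    · refine Fin.cases ?_ (fun i => ?_) i
      · simp [addRow]
      · simp [addRow]

open Classical in
theorem card_row_eq (m : ℕ) :
    (univ.filter fun B : Matrix (Fin (m + 2)) (Fin m) F => cof B 0 = cof B 1).card =
      Fintype.card F ^ m * N F (m + 1) m m := by
  unfold N
  rw [Finset.card_filter, ← (rowEquiv m).sum_comp, Fintype.sum_prod_type]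
  have h1 : ∀ (b : Fin m → F) (C : Matrix (Fin (m + 1)) (Fin m) F),
      (cof (rowEquiv m (b, C)) 0 = cof (rowEquiv m (b, C)) 1) ↔ ¬ NZ m C := by
    intro b C
    rw [cof_row_eq_iff]
    have : addRow ((rowEquiv m (b, C)) 1 - (rowEquiv m (b, C)) 0)
        ((rowEquiv m (b, C)).submatrix (fun i : Fin m => i.succ.succ) id) = C := by
      have h := congrArg Prod.snd ((rowEquiv m).symm_apply_apply (b, C))
      exact h
    rw [this]
  simp_rw [h1]
  rw [Finset.sum_const, Finset.card_univ, Fintype.card_fun, Fintype.card_fin, smul_eq_mul,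
    ← Finset.card_filter]

open Classical in
theorem card_row_eq' (m : ℕ) (j j' : Fin (m + 2)) (hj : j ≠ j') :
    (univ.filter fun B : Matrix (Fin (m + 2)) (Fin m) F => cof B j = cof B j').card =
      Fintype.card F ^ m * N F (m + 1) m m := by
  rw [← card_row_eq]
  have h01 : (0 : Fin (m + 2)) ≠ 1 := by
    intro h
    exact (Fin.succ_ne_zero (0 : Fin (m + 1))) h.symm
  obtain ⟨ε, h0, h1⟩ : ∃ ε : Equiv.Perm (Fin (m + 2)), ε 0 = j ∧ ε 1 = j' := by
    refine ⟨(Equiv.swap 0 j).trans (Equiv.swap ((Equiv.swap 0 j) 1) j'), ?_, ?_⟩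
    · rw [Equiv.trans_apply, Equiv.swap_apply_left]
      apply Equiv.swap_apply_of_ne_of_ne _ hj
      intro h
      have h2 := congrArg (Equiv.swap 0 j) h
      rw [Equiv.swap_apply_self, Equiv.swap_apply_right] at h2
      exact h01 h2
    · rw [Equiv.trans_apply, Equiv.swap_apply_left]
  have key : ∀ B : Matrix (Fin (m + 2)) (Fin m) F,
      cof (B.submatrix ε id) 0 = cof (B.submatrix ε id) 1 ↔ cof B j = cof B j' := by
    intro B
    constructor
    · intro h
      funext t
      have h2 := congrFun h (ε.symm t)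
      rw [cof_submatrix, cof_submatrix, h0, h1, Equiv.apply_symm_apply] at h2
      exact h2
    · intro h
      funext t
      rw [cof_submatrix, cof_submatrix, h0, h1, h]
  refine Finset.card_bij (fun B _ => B.submatrix ε id) ?_ ?_ ?_
  · intro B hB
    rw [Finset.mem_filter] at hB ⊢
    exact ⟨mem_univ _, (key B).2 hB.2⟩
  · intro B _ B' _ h
    ext i k
    have := congrFun (congrFun h (ε.symm i)) k
    simpa using this
  · intro B hB
    rw [Finset.mem_filter] at hB
    have h2 : (B.submatrix ε.symm id).submatrix ε id = B := by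
      ext i k
      simp
    refine ⟨B.submatrix ε.symm id, ?_, h2⟩
    rw [Finset.mem_filter]
    refine ⟨mem_univ _, (key _).1 ?_⟩
    rw [h2]
    exact hB.2

end count

end Pool.Agent.U310.PV
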